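import Pool.Agent.Helper61.KZ.F4
import Pool.Agent.Helper80.KZ.PRE
import Pool.Agent.Helper71.KZ.BAL
import Pool.Agent.Helper45.KZ.LIN
import Pool.Agent.Helper77.KZ.SLC
import Pool.Agent.Helper2.KZ.FAR
import Pool.Agent.Helper34.KZ.JMP
import Pool.Agent.Helper66.KZ.EN
import Pool.Agent.Helper95.KZ.AS

/-! Project KZ: the assembly. -/

set_option autoImplicit false

namespace Pool.Agent.Helper61.KZ

open Pool.Agent.Helper95.KZ

universe u

theorem kz2 : Kz2Stmt.{u} :=
  Helper95.KZ.as Helper80.KZ.pre Helper71.KZ.bal Helper45.KZ.lin Helper2.KZ.far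
    Helper34.KZ.jmp (Helper66.KZ.en Helper77.KZ.slc Helper2.KZ.far)

theorem f4s : F4Stmt.{u} := f4 kz2

end Pool.Agent.Helper61.KZ
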