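import Pool.Agent.Helper95.KZ.Goals
import Pool.Agent.Helper61.NW.AsmD

/-! Packet KZ-F4: the final statement. -/

set_option autoImplicit false

namespace Pool.Agent.Helper61.KZ

open Pool.Agent.Helper52.Wq2 Pool.Agent.Helper61.NW Pool.Agent.Helper95.KZ

universe u

theorem f4 (hK : Kz2Stmt.{u}) : F4Stmt.{u} := by
  intro Γ _ _ S hS h
  refine nwp Γ S hS ?_
  intro i
  rcases h i with ⟨hi, hc⟩ | hk
  · rcases hc with hc | hc | ⟨hc, hd⟩
    · exact Or.inl ⟨hi, Or.inl hc⟩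
    · exact Or.inl ⟨hi, Or.inr (Or.inl hc)⟩
    · by_cases hz : ∃ A : Subgroup (Γ i), A.FiniteIndex ∧ Nonempty (A ≃* Multiplicative (ℤ × ℤ))
      · rcases hd with hd | hd
        · exact Or.inr (hK (Γ i) (S i) (hS i) hz hd)
        · exact absurd hz hd
      · exact Or.inl ⟨hi, Or.inr (Or.inr ⟨hc, hz⟩)⟩
  · exact Or.inr hk

end Pool.Agent.Helper61.KZ
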